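import Pool.Agent.H868.TR.Hh

/-!
Injectivity of the multiplications by powers of linear forms is an open condition.
-/

namespace Pool.Agent.H868.PL

set_option maxHeartbeats 400000
set_option linter.unusedSectionVars false

open MvPolynomial
open Pool.Agent.H868.TS hiding L

universe u

variable {ν : ℕ} {K : Type u} [Field K] {I : Ideal (Rv ν K)}

/-- the multiplication by `ℓ_t ^ k` is injective in degree `i` modulo `I` -/
def Inj (I : Ideal (Rv ν K)) (i k : ℕ) (t : Fin ν → K) : Prop :=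
  ∀ u : Rv ν K, u.IsHomogeneous i → lf t ^ k * u ∈ I → u ∈ I

theorem open_inj {i k : ℕ} {t0 : Fin ν → K} (h : Inj I i k t0) :
    ∃ Φ : Rv ν K, eval t0 Φ ≠ 0 ∧ ∀ t, eval t Φ ≠ 0 → Inj I i k t := by
  classical
  let I' : Submodule K (Rv ν K) := I.restrictScalars K
  have hfin : FiniteDimensional K (H ν K i) := Module.Finite.iff_fg.2 (homogeneousSubmodule_fg _ _ i)
  let M : Submodule K (Rv ν K ⧸ I') := (H ν K i).map I'.mkQ
  have hfinM : FiniteDimensional K M := by
    change FiniteDimensional K ((H ν K i).map I'.mkQ)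
    infer_instance
  set bb := Module.finBasis K M with hbb
  set r := Module.finrank K M with hr
  have h1 : ∀ p : Fin r, ∃ e : Rv ν K, e.IsHomogeneous i ∧ I'.mkQ e = (bb p : Rv ν K ⧸ I') := by
    intro p
    obtain ⟨e, he, h2⟩ := (bb p).2
    exact ⟨e, he, h2⟩
  choose e heh hem using h1
  have hmk : ∀ x : Rv ν K, I'.mkQ x = 0 ↔ x ∈ I := by
    intro x
    rw [Submodule.mkQ_apply, Submodule.Quotient.mk_eq_zero]
    exact Iff.rfl
  have hdec : ∀ u : Rv ν K, u.IsHomogeneous i → ∃ c : Fin r → K, u - ∑ p, c p • e p ∈ I := by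
    intro u hu
    have h2 : I'.mkQ u ∈ M := Submodule.mem_map_of_mem hu
    refine ⟨fun p => bb.repr ⟨_, h2⟩ p, ?_⟩
    rw [← hmk, map_sub, map_sum]
    have h3 := congrArg (fun z : M => (z : Rv ν K ⧸ I')) (bb.sum_repr ⟨_, h2⟩)
    simp only [AddSubmonoidClass.coe_finsetSum, Submodule.coe_smul] at h3
    rw [sub_eq_zero]
    exact h3.symm.trans (Finset.sum_congr rfl fun p _ => by rw [map_smul, hem])
  have hind : ∀ c : Fin r → K, ∑ p, c p • e p ∈ I → c = 0 := by
    intro c hc
    rw [← hmk, map_sum] at hc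
    have h3 : (∑ p, c p • bb p : M) = 0 := by
      apply Subtype.ext
      simp only [AddSubmonoidClass.coe_finsetSum, Submodule.coe_smul, ZeroMemClass.coe_zero]
      rw [← hc]
      refine Finset.sum_congr rfl fun p _ => ?_
      rw [map_smul, hem]
    have h4 := Fintype.linearIndependent_iff.1 bb.linearIndependent c h3
    exact funext h4
  -- the dual functionals
  let w : Fin r → (Rv ν K ⧸ I') := fun p => I'.mkQ (lf t0 ^ k * e p)
  let Λ : (Fin r → K) →ₗ[K] (Rv ν K ⧸ I') := Fintype.linearCombination K w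
  have hker : LinearMap.ker Λ = ⊥ := by
    rw [LinearMap.ker_eq_bot']
    intro c hc
    apply hind
    apply h
    · refine IsHomogeneous.sum _ _ _ fun p _ => ?_
      rw [smul_eq_C_mul]
      exact (heh p).C_mul _
    · rw [← hmk, ← hc, Fintype.linearCombination_apply, Finset.mul_sum, map_sum]
      refine Finset.sum_congr rfl fun p _ => ?_
      rw [mul_smul_comm, map_smul]
  obtain ⟨g, hg⟩ := LinearMap.exists_leftInverse_of_injective Λ hker
  let φ : Fin r → (Rv ν K →ₗ[K] K) := fun q => (LinearMap.proj q) ∘ₗ g ∘ₗ I'.mkQ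
  have hφI : ∀ q, ∀ x ∈ I, φ q x = 0 := by
    intro q x hx
    have h2 : I'.mkQ x = 0 := (hmk x).2 hx
    change (g (I'.mkQ x)) q = 0
    rw [h2, map_zero]
    rfl
  have hφw : ∀ q p, φ q (lf t0 ^ k * e p) = if q = p then 1 else 0 := by
    intro q p
    change (g (w p)) q = _
    have h2 : Λ (Pi.single p 1) = w p := by
      change Fintype.linearCombination K w (Pi.single p 1) = w p
      rw [Fintype.linearCombination_apply_single, one_smul]
    have h3 : g (w p) = Pi.single p 1 := by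
      rw [← h2]
      exact LinearMap.congr_fun hg (Pi.single p 1)
    rw [h3, Pi.single_apply]
  let MM : Matrix (Fin r) (Fin r) (Rv ν K) := fun q p => Ph (φ q) (gl ν K ^ k * C (e p))
  have hev : ∀ t q p, eval t (MM q p) = φ q (lf t ^ k * e p) := by
    intro t q p
    change eval t (Ph (φ q) (gl ν K ^ k * C (e p))) = _
    rw [eval_Ph, map_mul, map_pow, evt_gl, evt_C]
  refine ⟨MM.det, ?_, fun t ht u hu hm => ?_⟩
  · rw [RingHom.map_det]
    have h2 : (eval t0).mapMatrix MM = 1 := by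
      ext q p
      rw [RingHom.mapMatrix_apply, Matrix.map_apply, hev, hφw, Matrix.one_apply]
    rw [h2, Matrix.det_one]
    exact one_ne_zero
  · rw [RingHom.map_det] at ht
    obtain ⟨c, hc⟩ := hdec u hu
    have h2 : c = 0 := by
      apply Matrix.eq_zero_of_mulVec_eq_zero ht
      funext q
      rw [Matrix.mulVec, dotProduct, Pi.zero_apply]
      have h3 : φ q (lf t ^ k * ∑ p, c p • e p) = 0 := by
        apply hφI
        have e1 : lf t ^ k * ∑ p, c p • e p = lf t ^ k * u - lf t ^ k * (u - ∑ p, c p • e p) := by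
          ring
        rw [e1]
        exact I.sub_mem hm (I.mul_mem_left _ hc)
      rw [← h3, Finset.mul_sum, map_sum]
      refine Finset.sum_congr rfl fun p _ => ?_
      rw [RingHom.mapMatrix_apply, Matrix.map_apply, hev, mul_smul_comm, map_smul, smul_eq_mul,
        mul_comm]
    rw [h2] at hc
    simpa using hc

/-- injectivity for all general linear forms, in the range `S` -/
def Good (I : Ideal (Rv ν K)) (S : ℕ → ℕ → Prop) : Prop :=
  ∃ Φ : Rv ν K, Φ ≠ 0 ∧ ∀ t, eval t Φ ≠ 0 → ∀ i k, S i k → Inj I i k t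

theorem good_of {S : ℕ → ℕ → Prop} {B : ℕ} (hS : ∀ i k, S i k → i < B ∧ k < B) {t0 : Fin ν → K}
    (h : ∀ i k, S i k → Inj I i k t0) : Good I S := by
  classical
  have h1 : ∀ ik : ℕ × ℕ, ∃ Φ : Rv ν K, eval t0 Φ ≠ 0 ∧ ∀ t, eval t Φ ≠ 0 → S ik.1 ik.2 →
      Inj I ik.1 ik.2 t := by
    intro ik
    by_cases hs : S ik.1 ik.2
    · obtain ⟨Φ, h2, h3⟩ := open_inj (h _ _ hs)
      exact ⟨Φ, h2, fun t ht _ => h3 t ht⟩
    · exact ⟨1, by rw [map_one]; exact one_ne_zero, fun t _ hs' => absurd hs' hs⟩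
  choose Φ h2 h3 using h1
  have h4 : eval t0 (∏ ik ∈ Finset.range B ×ˢ Finset.range B, Φ ik) ≠ 0 := by
    rw [map_prod]
    exact Finset.prod_ne_zero_iff.2 fun ik _ => h2 ik
  refine ⟨∏ ik ∈ Finset.range B ×ˢ Finset.range B, Φ ik, ?_, fun t ht i k hs => ?_⟩
  · intro h0
    rw [h0, map_zero] at h4
    exact h4 rfl
  · rw [map_prod, Finset.prod_ne_zero_iff] at ht
    obtain ⟨h5, h6⟩ := hS i k hs
    exact h3 (i, k) t (ht (i, k) (Finset.mem_product.2 ⟨Finset.mem_range.2 h5,
      Finset.mem_range.2 h6⟩)) hs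

theorem Good.and [Infinite K] {S S' : ℕ → ℕ → Prop} (h : Good I S) (h' : Good I S') :
    ∃ t : Fin ν → K, ∀ i k, S i k ∨ S' i k → Inj I i k t := by
  obtain ⟨Φ, h1, h2⟩ := h
  obtain ⟨Φ', h1', h2'⟩ := h'
  obtain ⟨t, ht⟩ : ∃ t, eval t (Φ * Φ') ≠ 0 := by
    by_contra hcon
    push Not at hcon
    apply mul_ne_zero h1 h1'
    apply MvPolynomial.funext
    intro t
    rw [hcon t, map_zero]
  rw [map_mul] at ht
  refine ⟨t, fun i k hs => ?_⟩
  rcases hs with hs | hs
  · exact h2 t (left_ne_zero_of_mul ht) i k hs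
  · exact h2' t (right_ne_zero_of_mul ht) i k hs

end Pool.Agent.H868.PL
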