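import Pool.Agent.H868.PL.A
import Pool.Agent.H868.TC.Main

/-!
Complete intersections with linear generators: reduction to three variables.
-/

namespace Pool.Agent.H868.PL

set_option maxHeartbeats 400000
set_option linter.unusedSectionVars false

open MvPolynomial
open Pool.Agent.H868.TS hiding L core
open Pool.Agent.H868.TP (lf_add lf_smul lf_sub)
open H503R3.QCI (Homog NZD Reg homog_span)
open TH130CI (SRegOn sreg_of_reg span_insert')

universe u

variable {K : Type u} [Field K]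

section lin

variable {ν μ ρ : ℕ}

lemma lf_single (k : Fin ν) : lf (Pi.single k (1 : K)) = X k := by
  rw [lf, Finset.sum_eq_single k]
  · rw [Pi.single_eq_same, C_1, one_mul]
  · intro b _ hb
    rw [Pi.single_eq_of_ne hb, C_0, zero_mul]
  · intro h
    exact absurd (Finset.mem_univ k) h

lemma lf_zero : lf (0 : Fin ν → K) = 0 := by
  rw [lf]
  simp

lemma lf_sum {ι : Type*} (s : Finset ι) (g : ι → Fin ν → K) : lf (∑ k ∈ s, g k) = ∑ k ∈ s, lf (g k) := by
  classical
  induction s using Finset.induction_on with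
  | empty => rw [Finset.sum_empty, Finset.sum_empty, lf_zero]
  | insert x s hx ih => rw [Finset.sum_insert hx, Finset.sum_insert hx, lf_add, ih]

/-- the substitution defined by a linear map -/
noncomputable def Pm (g : (Fin ν → K) →ₗ[K] (Fin μ → K)) : Rv ν K →ₐ[K] Rv μ K :=
  aeval fun k => lf (g (Pi.single k 1))

lemma Pm_X (g : (Fin ν → K) →ₗ[K] (Fin μ → K)) (k : Fin ν) : Pm g (X k) = lf (g (Pi.single k 1)) :=
  aeval_X _ _

lemma Pm_lf (g : (Fin ν → K) →ₗ[K] (Fin μ → K)) (a : Fin ν → K) : Pm g (lf a) = lf (g a) := by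
  have h1 : a = ∑ k, a k • (Pi.single k (1 : K) : Fin ν → K) := by
    ext j
    rw [Finset.sum_apply, Finset.sum_eq_single j]
    · rw [Pi.smul_apply, Pi.single_eq_same, smul_eq_mul, mul_one]
    · intro b _ hb
      rw [Pi.smul_apply, Pi.single_eq_of_ne hb.symm, smul_zero]
    · intro h
      exact absurd (Finset.mem_univ j) h
  have h2 : g a = ∑ k, a k • g (Pi.single k (1 : K)) := by
    conv_lhs => rw [h1]
    rw [map_sum]
    exact Finset.sum_congr rfl fun k _ => by rw [map_smul]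
  rw [h2, lf_sum, lf, map_sum]
  refine Finset.sum_congr rfl fun k _ => ?_
  rw [lf_smul, map_mul, Pm_X, algHom_C]
  rfl

lemma Pm_hom (g : (Fin ν → K) →ₗ[K] (Fin μ → K)) {x : Rv ν K} {n : ℕ} (hx : x.IsHomogeneous n) :
    (Pm g x).IsHomogeneous n := by
  have h1 := hx.aeval (fun k => lf (g (Pi.single k 1))) (fun k => lf_hom _)
  rwa [one_mul] at h1

lemma Pm_comp (g : (Fin ν → K) →ₗ[K] (Fin μ → K)) (s : (Fin μ → K) →ₗ[K] (Fin ν → K))
    (h : ∀ a, g (s a) = a) (y : Rv μ K) : Pm g (Pm s y) = y := by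
  have h1 : (Pm g).comp (Pm s) = AlgHom.id K _ := by
    apply MvPolynomial.algHom_ext
    intro k
    rw [AlgHom.comp_apply, Pm_X, Pm_lf, h, lf_single]
    rfl
  exact DFunLike.congr_fun h1 y

lemma Pm_sub (g : (Fin ν → K) →ₗ[K] (Fin μ → K)) (s : (Fin μ → K) →ₗ[K] (Fin ν → K))
    {I : Ideal (Rv ν K)} (h : ∀ a, lf (a - s (g a)) ∈ I) (x : Rv ν K) : x - Pm s (Pm g x) ∈ I := by
  induction x using MvPolynomial.induction_on with
  | C a =>
    rw [algHom_C, algebraMap_eq, algHom_C, algebraMap_eq, sub_self]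
    exact I.zero_mem
  | add p q hp hq =>
    rw [map_add, map_add]
    have e : p + q - (Pm s (Pm g p) + Pm s (Pm g q)) = (p - Pm s (Pm g p)) + (q - Pm s (Pm g q)) := by
      ring
    rw [e]
    exact I.add_mem hp hq
  | mul_X p k hp =>
    rw [map_mul, map_mul]
    have e : p * X k - Pm s (Pm g p) * Pm s (Pm g (X k))
        = (p - Pm s (Pm g p)) * X k + Pm s (Pm g p) * (X k - Pm s (Pm g (X k))) := by ring
    rw [e]
    refine I.add_mem (Ideal.mul_mem_right _ _ hp) (Ideal.mul_mem_left _ _ ?_)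
    have h1 := h (Pi.single k 1)
    rwa [lf_sub, lf_single, ← Pm_lf s, ← Pm_X g] at h1

end lin

variable {m : ℕ}

/-- **linear generators** -/
theorem base_lin [CharZero K] {f : Fin (m + 3) → Rv (m + 3) K} {d : Fin (m + 3) → ℕ}
    (hf : ∀ i, (f i).IsHomogeneous (d i)) (hd : ∀ i, 1 ≤ d i) (hreg : Reg f)
    (hlin : ∀ j : Fin m, (f (ii j)).IsHomogeneous 1) :
    ∃ t0 : Fin (m + 3) → K, ∀ i k, (2 * i + k ≤ d (kk 1) + d (kk 2) ∧
      2 * i + k + 3 ≤ d (kk 0) + d (kk 1) + d (kk 2)) → Inj (Ideal.span (Set.range f)) i k t0 := by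
  classical
  have hs := sreg_of_reg hf hd hreg
  choose A hA using fun j => exists_lf (hlin j)
  have hPP : PP f = Ideal.span (Set.range fun j => lf (A j)) := by
    rw [PP_eq]
    congr 2
    exact funext hA
  -- independence
  have hind : LinearIndependent K A := by
    rw [Fintype.linearIndependent_iff]
    intro c hc j0
    by_contra hc0
    have h1 : ∑ j, C (c j) * f (ii j) = 0 := by
      have h2 : lf (∑ j, c j • A j) = 0 := by rw [hc, lf_zero]
      rw [lf_sum] at h2
      rw [← h2]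
      refine Finset.sum_congr rfl fun j _ => ?_
      rw [lf_smul, hA]
    rw [← Finset.add_sum_erase _ _ (Finset.mem_univ j0)] at h1
    have h3 : f (ii j0) * 1 ∈ Ideal.span (f '' ((Finset.univ.erase (ii j0) : Finset (Fin (m + 3))) :
        Set (Fin (m + 3)))) := by
      have h4 : (C (c j0)⁻¹ : Rv (m + 3) K) * C (c j0) = 1 := by
        rw [← C_mul, inv_mul_cancel₀ hc0, C_1]
      have h5 : f (ii j0) * 1 = -(C (c j0)⁻¹ * ∑ j ∈ Finset.univ.erase j0, C (c j) * f (ii j)) := by
        linear_combination (-(f (ii j0))) * h4 + C (c j0)⁻¹ * h1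
      rw [h5]
      refine Ideal.neg_mem_iff _ |>.2 (Ideal.mul_mem_left _ _ (Ideal.sum_mem _ fun j hj => ?_))
      refine Ideal.mul_mem_left _ _ (Ideal.subset_span ⟨ii j, ?_, rfl⟩)
      rw [Finset.coe_erase, Finset.coe_univ]
      refine ⟨Set.mem_univ _, fun h => (Finset.mem_erase.1 hj).1 (Pool.Agent.H868.TP.ii_inj h)⟩
    have h4 := hs (Finset.univ.erase (ii j0)) (Finset.subset_univ _) (ii j0) (Finset.mem_univ _)
      (Finset.notMem_erase _ _) 1 h3
    have h5 : Ideal.span (f '' ((Finset.univ.erase (ii j0) : Finset (Fin (m + 3))) :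
        Set (Fin (m + 3)))) ≤ RingHom.ker (eval (0 : Fin (m + 3) → K)) := by
      rw [Ideal.span_le]
      rintro _ ⟨j, -, rfl⟩
      exact eval_zero_hom (hf j) (hd j)
    have h6 : eval (0 : Fin (m + 3) → K) (1 : Rv (m + 3) K) = 0 := h5 h4
    rw [map_one] at h6
    exact one_ne_zero h6
  set U : Submodule K (Fin (m + 3) → K) := Submodule.span K (Set.range A) with hU
  have hfU : Module.finrank K U = m := by
    rw [hU, finrank_span_eq_card hind, Fintype.card_fin]
  have hfQ : Module.finrank K ((Fin (m + 3) → K) ⧸ U) = Module.finrank K (Fin 3 → K) := by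
    have h1 := U.finrank_quotient_add_finrank
    rw [hfU, Module.finrank_fin_fun] at h1
    rw [Module.finrank_fin_fun]
    omega
  let eq : ((Fin (m + 3) → K) ⧸ U) ≃ₗ[K] (Fin 3 → K) := LinearEquiv.ofFinrankEq _ _ hfQ
  let θ : (Fin (m + 3) → K) →ₗ[K] (Fin 3 → K) := eq.toLinearMap ∘ₗ U.mkQ
  have hθs : LinearMap.range θ = ⊤ := by
    rw [LinearMap.range_eq_top]
    exact eq.surjective.comp (Submodule.mkQ_surjective U)
  have hθk : ∀ a, θ a = 0 → a ∈ U := by
    intro a ha
    have h1 : eq (U.mkQ a) = 0 := ha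
    rw [LinearEquiv.map_eq_zero_iff, Submodule.mkQ_apply, Submodule.Quotient.mk_eq_zero] at h1
    exact h1
  have hθU : ∀ a ∈ U, θ a = 0 := by
    intro a ha
    change eq (U.mkQ a) = 0
    rw [LinearEquiv.map_eq_zero_iff, Submodule.mkQ_apply, Submodule.Quotient.mk_eq_zero]
    exact ha
  obtain ⟨s, hs'⟩ := LinearMap.exists_rightInverse_of_surjective θ hθs
  have hθs1 : ∀ a, θ (s a) = a := fun a => LinearMap.congr_fun hs' a
  have hlfU : ∀ a ∈ U, lf a ∈ PP f := by
    intro a ha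
    refine Submodule.span_induction ?_ ?_ ?_ ?_ ha
    · rintro _ ⟨j, rfl⟩
      rw [hPP]
      exact Ideal.subset_span ⟨j, rfl⟩
    · rw [lf_zero]
      exact Ideal.zero_mem _
    · intro x y _ _ hx hy
      rw [lf_add]
      exact Ideal.add_mem _ hx hy
    · intro c x _ hx
      rw [lf_smul]
      exact Ideal.mul_mem_left _ _ hx
  have hsub : ∀ x : Rv (m + 3) K, x - Pm s (Pm θ x) ∈ PP f := Pm_sub θ s fun a => by
    apply hlfU
    apply hθk
    rw [map_sub, hθs1, sub_self]
  have hkill : ∀ x ∈ PP f, Pm θ x = 0 := by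
    intro x hx
    have h1 : PP f ≤ RingHom.ker (Pm θ : Rv (m + 3) K →+* Rv 3 K) := by
      rw [hPP, Ideal.span_le]
      rintro _ ⟨j, rfl⟩
      change Pm θ (lf (A j)) = 0
      rw [Pm_lf, hθU _ (Submodule.subset_span ⟨j, rfl⟩), lf_zero]
    exact h1 hx
  have hker : ∀ x, Pm θ x = 0 → x ∈ PP f := by
    intro x hx
    have h1 := hsub x
    rwa [hx, map_zero, sub_zero] at h1
  -- the three forms
  set G : Fin 3 → Rv 3 K := fun a => Pm θ (f (kk a)) with hG
  have hGh : ∀ a, (G a).IsHomogeneous (d (kk a)) := fun a => Pm_hom θ (hf _)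
  obtain ⟨k0, k01, k2⟩ := regMod hf hd hreg 0 2 1 (by decide) (by decide) (by decide)
  -- transfer of ideals
  have hsurj : Function.Surjective (Pm θ) := fun y => ⟨Pm s y, Pm_comp θ s hθs1 y⟩
  have htr : ∀ Q : Ideal (Rv (m + 3) K), PP f ≤ Q → ∀ x, x ∈ Q.map (Pm θ) ↔ Pm s x ∈ Q := by
    intro Q hQ x
    constructor
    · intro hx
      obtain ⟨q, hq, rfl⟩ := (Ideal.mem_map_iff_of_surjective (Pm θ) hsurj).1 hx
      have e : Pm s (Pm θ q) = q - (q - Pm s (Pm θ q)) := by ring
      rw [e]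
      exact Q.sub_mem hq (hQ (hsub q))
    · intro hx
      have h1 := Ideal.mem_map_of_mem (Pm θ) hx
      rwa [Pm_comp θ s hθs1] at h1
  have htr2 : ∀ Q : Ideal (Rv (m + 3) K), PP f ≤ Q → ∀ x, Pm θ x ∈ Q.map (Pm θ) ↔ x ∈ Q := by
    intro Q hQ x
    rw [htr Q hQ]
    constructor
    · intro h
      have e : x = Pm s (Pm θ x) + (x - Pm s (Pm θ x)) := by ring
      rw [e]
      exact Q.add_mem h (hQ (hsub x))
    · intro h
      have e : Pm s (Pm θ x) = x - (x - Pm s (Pm θ x)) := by ring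
      rw [e]
      exact Q.sub_mem h (hQ (hsub x))
  have hnz : ∀ Q : Ideal (Rv (m + 3) K), PP f ≤ Q → ∀ F, NZD Q F → NZD (Q.map (Pm θ)) (Pm θ F) := by
    intro Q hQ F hF x hx
    rw [htr Q hQ]
    apply hF
    rw [← htr2 Q hQ, map_mul, Pm_comp θ s hθs1]
    exact hx
  have hmP : (PP f).map (Pm θ) = ⊥ := by
    rw [Ideal.map_eq_bot_iff_le_ker]
    exact fun x hx => hkill x hx
  have hm1 : (PP f ⊔ Ideal.span {f (kk 0)}).map (Pm θ) = Ideal.span {G 0} := by
    rw [Ideal.map_sup, hmP, bot_sup_eq, Ideal.map_span, Set.image_singleton]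
  have hm2 : (PP f ⊔ Ideal.span {f (kk 0)} ⊔ Ideal.span {f (kk 1)}).map (Pm θ)
      = Ideal.span {G 0, G 1} := by
    rw [Ideal.map_sup, hm1, Ideal.map_span, Set.image_singleton, ← Ideal.span_union]
    congr 1
  have hm3 : (Ideal.span (Set.range f)).map (Pm θ) = Ideal.span {G 0, G 1, G 2} := by
    rw [I_eq, Ideal.map_sup, hmP, bot_sup_eq, Ideal.map_span, ← Set.range_comp]
    congr 1
    ext y
    constructor
    · rintro ⟨a, rfl⟩
      fin_cases a
      · exact Or.inl rfl
      · exact Or.inr (Or.inl rfl)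
      · exact Or.inr (Or.inr rfl)
    · rintro (rfl | rfl | rfl)
      · exact ⟨0, rfl⟩
      · exact ⟨1, rfl⟩
      · exact ⟨2, rfl⟩
  have hPI : PP f ≤ Ideal.span (Set.range f) := by
    rw [I_eq]
    exact le_sup_left
  have hGreg : Reg ![G 0, G 1, G 2] := by
    intro i
    fin_cases i
    · have e0 : (![G 0, G 1, G 2] '' {j : Fin 3 | j < 0}) = ∅ := by
        rw [Set.image_eq_empty]
        ext j
        simp
      change NZD (Ideal.span (![G 0, G 1, G 2] '' {j : Fin 3 | j < 0})) (G 0)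
      rw [e0, Ideal.span_empty, ← hmP]
      exact hnz _ le_rfl _ k0
    · have e0 : ({j : Fin 3 | j < 1} : Set (Fin 3)) = {0} := by
        ext j
        fin_cases j <;> simp
      change NZD (Ideal.span (![G 0, G 1, G 2] '' {j : Fin 3 | j < 1})) (G 1)
      rw [e0, Set.image_singleton]
      change NZD (Ideal.span {G 0}) (G 1)
      rw [← hm1]
      exact hnz _ le_sup_left _ k01
    · have e0 : ({j : Fin 3 | j < 2} : Set (Fin 3)) = {0, 1} := by
        ext j
        fin_cases j <;> simp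
      change NZD (Ideal.span (![G 0, G 1, G 2] '' {j : Fin 3 | j < 2})) (G 2)
      rw [e0, Set.image_pair]
      change NZD (Ideal.span {G 0, G 1}) (G 2)
      rw [← hm2]
      exact hnz _ (le_sup_left.trans le_sup_left) _ k2
  obtain ⟨ℓ, hℓ, hmain⟩ := Pool.Agent.H868.TC.main (hGh 0) (hGh 1) (hGh 2) (hd _) (hd _) (hd _) hGreg
  obtain ⟨q, hq⟩ := exists_lf hℓ
  refine ⟨s q, fun i k hik u hu hmem => ?_⟩
  rw [← htr2 _ hPI, hm3] at hmem ⊢
  apply (hmain i k).1 hik.1 hik.2 _ (Pm_hom θ hu)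
  rw [hq]
  rwa [map_mul, map_pow, Pm_lf, hθs1] at hmem

end Pool.Agent.H868.PL
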