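import Pool.Agent.H868.PL.B

/-!
Complete intersections with generators which are products of linear forms: the range
`2 i + k ≤ b + c`, and the range below the middle.
-/

namespace Pool.Agent.H868.PL

set_option maxHeartbeats 400000
set_option linter.unusedSectionVars false

open MvPolynomial
open Pool.Agent.H868.TS hiding L core main
open Pool.Agent.H868.TP (sreg_update reg_of_sreg ii_inj kk_ne ne_zero_of_sreg)
open Pool.Agent.W515.SLP (Deg AnnP annP_of_homog annP_of_gt)
open Pool.Agent.TH61.SL (hc comp_mul hc_zero hc_hom comp_self comp_ne)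
open H503R3.QCI (Homog NZD Reg homog_span)
open TH130CI (gor mem_gor SRegOn sreg_of_reg surj_of_inj ci_gor' span_insert')

universe u

variable {K : Type u} [Field K] {m : ℕ}

/-- splitting off a factor -/
lemma inj_step {I0 : Ideal (Rv (m + 3) K)} (hI0 : Homog I0) {a q : Rv (m + 3) K}
    (ha : a.IsHomogeneous 1) (hna : ∀ x, a * x ∈ I0 → x ∈ I0) {i k : ℕ} {t : Fin (m + 3) → K}
    (h1 : Inj (I0 ⊔ Ideal.span {a}) i k t) (h2 : Inj (I0 ⊔ Ideal.span {q}) (i - 1) k t) :
    Inj (I0 ⊔ Ideal.span {a * q}) i k t := by
  intro u hu hm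
  obtain ⟨β, hβ⟩ := mem_sup'.1 hm
  have h3 : u ∈ I0 ⊔ Ideal.span {a} := by
    apply h1 u hu
    exact mem_sup'.2 ⟨q * β, by rwa [← mul_assoc]⟩
  obtain ⟨α, hα⟩ := mem_sup'.1 h3
  have h4 := hI0 _ hα i
  rw [map_sub, comp_self hu, mul_comm, comp_mul ha] at h4
  set α' := hc 1 i α with hα'
  have hα'h : α'.IsHomogeneous (i - 1) := hc_hom _
  have h5 : lf t ^ k * α' - q * β ∈ I0 := by
    apply hna
    have e : a * (lf t ^ k * α' - q * β) = (lf t ^ k * u - a * q * β) - lf t ^ k * (u - α' * a) := by
      ring
    rw [e]
    exact I0.sub_mem hβ (I0.mul_mem_left _ h4)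
  have h6 := h2 α' hα'h (mem_sup'.2 ⟨β, h5⟩)
  obtain ⟨γ, hγ⟩ := mem_sup'.1 h6
  refine mem_sup'.2 ⟨γ, ?_⟩
  have e : u - a * q * γ = (u - α' * a) + a * (α' - q * γ) := by ring
  rw [e]
  exact I0.add_mem h4 (I0.mul_mem_left _ hγ)

lemma span_upd (f : Fin (m + 3) → Rv (m + 3) K) (j0 : Fin m) (c : Rv (m + 3) K) :
    Ideal.span (Set.range (Function.update f (ii j0) c))
      = Ideal.span (f '' {j | j ≠ ii j0}) ⊔ Ideal.span {c} := by
  classical
  rw [← Ideal.span_union]
  congr 1
  ext x
  constructor
  · rintro ⟨j, rfl⟩
    by_cases h : j = ii j0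
    · right
      rw [h, Function.update_self]
      rfl
    · left
      exact ⟨j, h, by rw [Function.update_of_ne h]⟩
  · rintro (⟨j, h, rfl⟩ | h)
    · exact ⟨j, by rw [Function.update_of_ne h]⟩
    · refine ⟨ii j0, ?_⟩
      rw [Function.update_self]
      exact (Set.mem_singleton_iff.1 h).symm

/-- the range -/
def Rg (d : Fin (m + 3) → ℕ) (i k : ℕ) : Prop :=
  2 * i + k ≤ d (kk 1) + d (kk 2) ∧ 2 * i + k + 3 ≤ d (kk 0) + d (kk 1) + d (kk 2)

/-- **products of linear forms** -/
theorem good_all [CharZero K] (n : ℕ) : ∀ (p : Fin m → List (Rv (m + 3) K)),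
    (∑ j, (p j).length ≤ n) → ∀ {f : Fin (m + 3) → Rv (m + 3) K} {d : Fin (m + 3) → ℕ},
    (∀ i, (f i).IsHomogeneous (d i)) → (∀ i, 1 ≤ d i) → Reg f →
    (∀ j, f (ii j) = (p j).prod) → (∀ j, ∀ x ∈ p j, x.IsHomogeneous 1) →
    Good (Ideal.span (Set.range f)) (Rg d) := by
  classical
  induction n with
  | zero =>
    intro p hlen f d hf hd hreg hp hlin
    have hlj : ∀ j, (p j).length = 0 := by
      intro j
      have h1 := Finset.single_le_sum (f := fun j => (p j).length) (fun _ _ => Nat.zero_le _)
        (Finset.mem_univ j)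
      have h2 : (p j).length ≤ ∑ j, (p j).length := h1
      omega
    obtain ⟨t0, ht0⟩ := base_lin hf hd hreg fun j => by
      exfalso
      have h1 := hp j
      rw [List.length_eq_zero_iff.1 (hlj j), List.prod_nil] at h1
      have h2 := hf (ii j)
      rw [h1] at h2
      have h3 := h2.inj_right (isHomogeneous_one _ _) one_ne_zero
      have := hd (ii j)
      omega
    exact good_of (B := d (kk 1) + d (kk 2) + 1) (fun i k h => ⟨by have := h.1; omega, by
      have := h.1; omega⟩) ht0
  | succ n ih =>
    intro p hlen f d hf hd hreg hp hlin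
    have hs := sreg_of_reg hf hd hreg
    have hne : ∀ j, p j ≠ [] := by
      intro j h0
      have h1 := hp j
      rw [h0, List.prod_nil] at h1
      have h2 := hf (ii j)
      rw [h1] at h2
      have h3 := h2.inj_right (isHomogeneous_one _ _) one_ne_zero
      have := hd (ii j)
      omega
    by_cases hlong : ∃ j0, 2 ≤ (p j0).length
    · obtain ⟨j0, hj0⟩ := hlong
      obtain ⟨a, l, hal⟩ : ∃ a l, p j0 = a :: l := by
        rcases hp0 : p j0 with _ | ⟨a, l⟩
        · exact absurd hp0 (hne j0)
        · exact ⟨a, l, rfl⟩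
      have hl1 : 1 ≤ l.length := by
        rw [hal, List.length_cons] at hj0
        omega
      set q := l.prod with hq
      have hfa : f (ii j0) = a * q := by rw [hp j0, hal, List.prod_cons]
      have hf0 : f (ii j0) ≠ 0 := ne_zero_of_sreg hs _
      have ha0 : a ≠ 0 := by rintro rfl; rw [zero_mul] at hfa; exact hf0 hfa
      have hq0 : q ≠ 0 := by intro h; rw [h, mul_zero] at hfa; exact hf0 hfa
      have hh1 : a.IsHomogeneous 1 := hlin j0 a (by rw [hal]; exact List.mem_cons_self)
      have hh2 := Pool.Agent.Chud.homog_of_dvd (hf (ii j0)) hf0 (Dvd.intro_left _ hfa.symm)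
      have hdq : 1 ≤ q.totalDegree := by
        obtain ⟨b, t, hbt⟩ : ∃ b t, l = b :: t := by
          rcases hl0 : l with _ | ⟨b, t⟩
          · rw [hl0] at hl1
            simp at hl1
          · exact ⟨b, t, rfl⟩
        have hqb : q = b * t.prod := by rw [hq, hbt, List.prod_cons]
        have hb0 : b ≠ 0 := by rintro rfl; rw [zero_mul] at hqb; exact hq0 hqb
        have ht0 : t.prod ≠ 0 := by intro h; rw [h, mul_zero] at hqb; exact hq0 hqb
        rw [hqb, totalDegree_mul_of_isDomain hb0 ht0]
        have hb1 : b.IsHomogeneous 1 := hlin j0 b (by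
          rw [hal, hbt]
          exact List.mem_cons_of_mem _ List.mem_cons_self)
        have := hb1.totalDegree hb0
        omega
      -- the two smaller complete intersections
      set f1 := Function.update f (ii j0) a with hf1
      set f2 := Function.update f (ii j0) q with hf2
      set d1 := Function.update d (ii j0) 1 with hd1
      set d2 := Function.update d (ii j0) q.totalDegree with hd2
      have hs1 : SRegOn Finset.univ f1 := sreg_update hs hfa
      have hs2 : SRegOn Finset.univ f2 := sreg_update hs (by rw [hfa, mul_comm])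
      have hf1h : ∀ i, (f1 i).IsHomogeneous (d1 i) := by
        intro i
        by_cases hi : i = ii j0
        · rw [hi, hf1, hd1, Function.update_self, Function.update_self]
          exact hh1
        · rw [hf1, hd1, Function.update_of_ne hi, Function.update_of_ne hi]
          exact hf i
      have hf2h : ∀ i, (f2 i).IsHomogeneous (d2 i) := by
        intro i
        by_cases hi : i = ii j0
        · rw [hi, hf2, hd2, Function.update_self, Function.update_self]
          exact hh2
        · rw [hf2, hd2, Function.update_of_ne hi, Function.update_of_ne hi]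
          exact hf i
      have hd1p : ∀ i, 1 ≤ d1 i := by
        intro i
        by_cases hi : i = ii j0
        · rw [hi, hd1, Function.update_self]
        · rw [hd1, Function.update_of_ne hi]
          exact hd i
      have hd2p : ∀ i, 1 ≤ d2 i := by
        intro i
        by_cases hi : i = ii j0
        · rw [hi, hd2, Function.update_self]
          exact hdq
        · rw [hd2, Function.update_of_ne hi]
          exact hd i
      have hdk1 : ∀ a, d1 (kk a) = d (kk a) := fun a => Function.update_of_ne (kk_ne a j0) _ _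
      have hdk2 : ∀ a, d2 (kk a) = d (kk a) := fun a => Function.update_of_ne (kk_ne a j0) _ _
      have hlen1 : ∑ j, (Function.update p j0 [a] j).length ≤ n := by
        have h1 : ∑ j, (Function.update p j0 [a] j).length < ∑ j, (p j).length := by
          refine Finset.sum_lt_sum (fun j _ => ?_) ⟨j0, Finset.mem_univ _, ?_⟩
          · by_cases hj : j = j0
            · subst hj
              rw [Function.update_self, List.length_singleton]
              omega
            · rw [Function.update_of_ne hj]
          · rw [Function.update_self, List.length_singleton]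
            omega
        omega
      have hlen2 : ∑ j, (Function.update p j0 l j).length ≤ n := by
        have h1 : ∑ j, (Function.update p j0 l j).length < ∑ j, (p j).length := by
          refine Finset.sum_lt_sum (fun j _ => ?_) ⟨j0, Finset.mem_univ _, ?_⟩
          · by_cases hj : j = j0
            · subst hj
              rw [Function.update_self, hal, List.length_cons]
              omega
            · rw [Function.update_of_ne hj]
          · rw [Function.update_self, hal, List.length_cons]
            omega
        omega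
      have hp1 : ∀ j, f1 (ii j) = (Function.update p j0 [a] j).prod := by
        intro j
        by_cases hj : j = j0
        · subst hj
          rw [hf1, Function.update_self, Function.update_self, List.prod_singleton]
        · rw [hf1, Function.update_of_ne hj, Function.update_of_ne fun h => hj (ii_inj h)]
          exact hp j
      have hp2 : ∀ j, f2 (ii j) = (Function.update p j0 l j).prod := by
        intro j
        by_cases hj : j = j0
        · subst hj
          rw [hf2, Function.update_self, Function.update_self]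
        · rw [hf2, Function.update_of_ne hj, Function.update_of_ne fun h => hj (ii_inj h)]
          exact hp j
      have hl1' : ∀ j, ∀ x ∈ Function.update p j0 [a] j, x.IsHomogeneous 1 := by
        intro j x hx
        by_cases hj : j = j0
        · subst hj
          rw [Function.update_self, List.mem_singleton] at hx
          rw [hx]
          exact hh1
        · rw [Function.update_of_ne hj] at hx
          exact hlin j x hx
      have hl2' : ∀ j, ∀ x ∈ Function.update p j0 l j, x.IsHomogeneous 1 := by
        intro j x hx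
        by_cases hj : j = j0
        · subst hj
          rw [Function.update_self] at hx
          apply hlin j
          rw [hal]
          exact List.mem_cons_of_mem _ hx
        · rw [Function.update_of_ne hj] at hx
          exact hlin j x hx
      obtain ⟨Φ1, h1, h1'⟩ := ih _ hlen1 hf1h hd1p (reg_of_sreg hs1) hp1 hl1'
      obtain ⟨Φ2, h2, h2'⟩ := ih _ hlen2 hf2h hd2p (reg_of_sreg hs2) hp2 hl2'
      refine ⟨Φ1 * Φ2, mul_ne_zero h1 h2, fun t ht i k hik => ?_⟩
      rw [map_mul] at ht
      have g1 := h1' t (left_ne_zero_of_mul ht) i k (by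
        rw [Rg, hdk1, hdk1, hdk1]
        exact hik)
      have g2 := h2' t (right_ne_zero_of_mul ht) (i - 1) k (by
        rw [Rg, hdk2, hdk2, hdk2]
        obtain ⟨x1, x2⟩ := hik
        exact ⟨by omega, by omega⟩)
      rw [hf1, span_upd] at g1
      rw [hf2, span_upd] at g2
      have hI : Ideal.span (Set.range f)
          = Ideal.span (f '' {j | j ≠ ii j0}) ⊔ Ideal.span {a * q} := by
        rw [← hfa, ← span_upd, Function.update_eq_self]
      rw [hI]
      refine inj_step (homog_span (by rintro _ ⟨j, -, rfl⟩; exact ⟨d j, hf j⟩)) hh1 ?_ g1 g2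
      intro x hx
      have h3 := hs (Finset.univ.erase (ii j0)) (Finset.subset_univ _) (ii j0) (Finset.mem_univ _)
        (Finset.notMem_erase _ _)
      have h4 : ((Finset.univ.erase (ii j0) : Finset (Fin (m + 3))) : Set (Fin (m + 3)))
          = {j | j ≠ ii j0} := by
        ext j
        simp
      rw [h4] at h3
      apply h3
      have e : f (ii j0) * x = q * (a * x) := by rw [hfa]; ring
      rw [e]
      exact Ideal.mul_mem_left _ _ hx
    · push Not at hlong
      obtain ⟨t0, ht0⟩ := base_lin hf hd hreg fun j => by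
        have h1 := hlong j
        rcases hp0 : p j with _ | ⟨a, l⟩
        · exact absurd hp0 (hne j)
        · rw [hp0, List.length_cons] at h1
          have h2 : l = [] := List.length_eq_zero_iff.1 (by omega)
          rw [hp j, hp0, h2, List.prod_singleton]
          exact hlin j a (by rw [hp0]; exact List.mem_cons_self)
      exact good_of (B := d (kk 1) + d (kk 2) + 1) (fun i k h => ⟨by have := h.1; omega, by
        have := h.1; omega⟩) ht0

/-- **main theorem** -/
theorem main [CharZero K] (hm : 1 ≤ m) {f : Fin (m + 3) → Rv (m + 3) K}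
    {d : Fin (m + 3) → ℕ} (hf : ∀ i, (f i).IsHomogeneous (d i)) (hd : ∀ i, 1 ≤ d i)
    (hreg : Reg f) (p : Fin m → List (Rv (m + 3) K)) (hp : ∀ j, f (ii j) = (p j).prod)
    (hlin : ∀ j, ∀ x ∈ p j, x.IsHomogeneous 1) (h2 : ∀ j : Fin m, 2 ≤ d (ii j)) :
    ∃ ℓ : Rv (m + 3) K, ℓ.IsHomogeneous 1 ∧ ∀ i k : ℕ,
      ((2 * (i + k) + 1 ≤ d (kk 0) + d (kk 1) + d (kk 2) ∨
        (2 * i + k ≤ d (kk 1) + d (kk 2) ∧ 2 * i + k + 3 ≤ d (kk 0) + d (kk 1) + d (kk 2))) →
        ∀ g : Rv (m + 3) K, g.IsHomogeneous i →
        ℓ ^ k * g ∈ Ideal.span (Set.range f) → g ∈ Ideal.span (Set.range f)) ∧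
      ((2 * (∑ j, (d j - 1)) + 1 ≤ 2 * i + (d (kk 0) + d (kk 1) + d (kk 2)) ∨
        (2 * (∑ j, (d j - 1)) ≤ 2 * i + k + (d (kk 1) + d (kk 2)) ∧
          2 * (∑ j, (d j - 1)) + 3 ≤ 2 * i + k + (d (kk 0) + d (kk 1) + d (kk 2)))) →
        ∀ h : Rv (m + 3) K, h.IsHomogeneous (i + k) →
        ∃ g : Rv (m + 3) K, g.IsHomogeneous i ∧ h - ℓ ^ k * g ∈ Ideal.span (Set.range f)) := by
  classical
  have hinf : Infinite K := inferInstance
  have hg1 := good_all _ p le_rfl hf hd hreg hp hlin
  obtain ⟨ℓ0, hℓ0, hmain⟩ := Pool.Agent.H868.TP.main_lin hm hf hd hreg p hp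
    (fun κ hκ => Or.inl fun j => hlin j _ (hκ j)) h2
  obtain ⟨t0, rfl⟩ := exists_lf hℓ0
  have hg2 : Good (Ideal.span (Set.range f))
      (fun i k => 2 * (i + k) + 1 ≤ d (kk 0) + d (kk 1) + d (kk 2)) :=
    good_of (B := d (kk 0) + d (kk 1) + d (kk 2)) (fun i k h => ⟨by omega, by omega⟩)
      fun i k h => (hmain i k).1 h
  obtain ⟨t, ht⟩ := hg2.and hg1
  obtain ⟨φ, hφ, hI⟩ := ci_gor' hf hd hreg
  refine ⟨lf t, lf_hom t, fun i k => ⟨fun hik => ht i k hik, fun hik h hh => ?_⟩⟩
  by_cases h3 : (∑ j, (d j - 1)) < i + k
  · refine ⟨0, isHomogeneous_zero _ _ _, ?_⟩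
    rw [mul_zero, sub_zero, hI]
    exact annP_of_gt hφ h3 hh
  · obtain ⟨g, hg, hm'⟩ := surj_of_inj hφ (lf_hom t) (i := i) (k := k) (by omega)
      (fun u hu hk => by
        have h4 := ht (∑ j, (d j - 1) - (i + k)) k (by
          rcases hik with h5 | ⟨h5, h6⟩
          · left
            omega
          · right
            exact ⟨by omega, by omega⟩) u hu
        rw [hI] at h4
        exact h4 hk) hh
    refine ⟨g, hg, ?_⟩
    rw [hI]
    exact hm'

end Pool.Agent.H868.PL
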