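import Pool.Agent.H868.PL.Cc

/-!
Complete intersections with generators which are products of linear forms: the range
`2 i + k ≤ b + c`, with the dual range.
-/

namespace Pool.Agent.H868.PL

set_option maxHeartbeats 400000
set_option linter.unusedSectionVars false

open MvPolynomial
open Pool.Agent.H868.TS hiding L core main
open Pool.Agent.W515.SLP (Deg AnnP annP_of_homog annP_of_gt)
open H503R3.QCI (Homog NZD Reg homog_span)
open TH130CI (gor mem_gor SRegOn sreg_of_reg surj_of_inj ci_gor' span_insert')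

universe u

/-- **the diagonals** -/
theorem main_diag {K : Type u} [Field K] [CharZero K] {m : ℕ} {f : Fin (m + 3) → Rv (m + 3) K}
    {d : Fin (m + 3) → ℕ} (hf : ∀ i, (f i).IsHomogeneous (d i)) (hd : ∀ i, 1 ≤ d i)
    (hreg : Reg f) (p : Fin m → List (Rv (m + 3) K)) (hp : ∀ j, f (ii j) = (p j).prod)
    (hlin : ∀ j, ∀ x ∈ p j, x.IsHomogeneous 1) :
    ∃ ℓ : Rv (m + 3) K, ℓ.IsHomogeneous 1 ∧ ∀ i k : ℕ,
      (2 * i + k ≤ d (kk 1) + d (kk 2) → 2 * i + k + 3 ≤ d (kk 0) + d (kk 1) + d (kk 2) →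
        ∀ g : Rv (m + 3) K, g.IsHomogeneous i →
        ℓ ^ k * g ∈ Ideal.span (Set.range f) → g ∈ Ideal.span (Set.range f)) ∧
      (2 * (∑ j, (d j - 1)) ≤ 2 * i + k + (d (kk 1) + d (kk 2)) →
        2 * (∑ j, (d j - 1)) + 3 ≤ 2 * i + k + (d (kk 0) + d (kk 1) + d (kk 2)) →
        ∀ h : Rv (m + 3) K, h.IsHomogeneous (i + k) →
        ∃ g : Rv (m + 3) K, g.IsHomogeneous i ∧ h - ℓ ^ k * g ∈ Ideal.span (Set.range f)) := by
  classical
  have hinf : Infinite K := inferInstance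
  have hg1 := good_all _ p le_rfl hf hd hreg hp hlin
  obtain ⟨t, ht⟩ := hg1.and hg1
  obtain ⟨φ, hφ, hI⟩ := ci_gor' hf hd hreg
  refine ⟨lf t, lf_hom t, fun i k => ⟨fun h1 h2 => ht i k (Or.inl ⟨h1, h2⟩),
    fun h5 h6 h hh => ?_⟩⟩
  by_cases h3 : (∑ j, (d j - 1)) < i + k
  · refine ⟨0, isHomogeneous_zero _ _ _, ?_⟩
    rw [mul_zero, sub_zero, hI]
    exact annP_of_gt hφ h3 hh
  · obtain ⟨g, hg, hm'⟩ := surj_of_inj hφ (lf_hom t) (i := i) (k := k) (by omega)
      (fun u hu hk => by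
        have h4 := ht (∑ j, (d j - 1) - (i + k)) k (Or.inl ⟨by omega, by omega⟩) u hu
        rw [hI] at h4
        exact h4 hk) hh
    refine ⟨g, hg, ?_⟩
    rw [hI]
    exact hm'

end Pool.Agent.H868.PL
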